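import Pool.Agent.Helper92.RK.Defs
import Pool.Graph.R_pool_sql_team_ae5b0c61.H14.Finner

/-!
# Part FIN: the upper bound for read-k families
-/

set_option autoImplicit false
set_option linter.all false

open Finset Pool.Agent.Helper92.RK

namespace Pool.Agent.Helper86.RK.FIN

open Pool.Agent.H14

theorem avg_eq_pr {n : ℕ} (E : (Fin n → Bool) → Prop) [DecidablePred E] :
    Finner.avg (fun x : Fin n → Bool => if E x then (1 : ℝ) else 0) = pr E := by
  classical
  unfold Finner.avg pr
  rw [sum_boole]
  congr 1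
  · congr 2
    ext x; simp
  · simp

theorem avg_sub {n : ℕ} (f g : (Fin n → Bool) → ℝ) :
    Finner.avg (fun x => f x - g x) = Finner.avg f - Finner.avg g := by
  unfold Finner.avg
  rw [sum_sub_distrib, sub_div]

theorem main (hSAT : S_SAT) : S_FIN := by
  classical
  intro n k ι s R hk hCon hRd
  have hk0 : (0 : ℝ) < k := by exact_mod_cast hk
  let J : Type := {b // b ∈ s} ⊕ Fin n
  let M : J → Finset (Fin n) := fun j => match j with
    | Sum.inl b => vr (R b.1)
    | Sum.inr i => {i}
  let w : J → ℝ := fun j => match j with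
    | Sum.inl b => 1 / k
    | Sum.inr i => 1 - ((s.filter fun b => i ∈ vr (R b)).card : ℝ) / k
  let f : J → (Fin n → Bool) → ℝ := fun j x => match j with
    | Sum.inl b => if Sat (R b.1) x then 0 else 1
    | Sum.inr i => 1
  have hw : ∀ j, 0 ≤ w j := by
    intro j
    rcases j with b | i
    · show (0 : ℝ) ≤ 1 / k
      positivity
    · show (0 : ℝ) ≤ 1 - ((s.filter fun b => i ∈ vr (R b)).card : ℝ) / k
      rw [sub_nonneg, div_le_one hk0]
      exact_mod_cast hRd i
  have hw1 : ∀ e, ∑ j ∈ univ.filter (fun j => e ∈ M j), w j = 1 := by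
    intro e
    rw [sum_filter, Fintype.sum_sum_type]
    have h1 : ∑ a : {b // b ∈ s}, (if e ∈ M (Sum.inl a) then w (Sum.inl a) else 0) =
        ((s.filter fun b => e ∈ vr (R b)).card : ℝ) / k := by
      have : ∑ a : {b // b ∈ s}, (if e ∈ M (Sum.inl a) then w (Sum.inl a) else 0) =
          ∑ b ∈ s, (if e ∈ vr (R b) then (1 : ℝ) / k else 0) := by
        rw [← sum_coe_sort s]
      rw [this, ← sum_filter, sum_const, nsmul_eq_mul]
      ring
    have h2 : ∑ a : Fin n, (if e ∈ M (Sum.inr a) then w (Sum.inr a) else 0) =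
        1 - ((s.filter fun b => e ∈ vr (R b)).card : ℝ) / k := by
      have : ∀ a : Fin n, (if e ∈ M (Sum.inr a) then w (Sum.inr a) else 0) =
          if e = a then 1 - ((s.filter fun b => e ∈ vr (R b)).card : ℝ) / k else 0 := by
        intro a
        show (if e ∈ ({a} : Finset (Fin n)) then
          1 - ((s.filter fun b => a ∈ vr (R b)).card : ℝ) / k else 0) = _
        by_cases h : e = a
        · subst h; simp
        · simp [h]
      rw [sum_congr rfl fun a _ => this a]
      simp
    rw [h1, h2]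
    ring
  have hf0 : ∀ j x, 0 ≤ f j x := by
    intro j x
    rcases j with b | i
    · show (0 : ℝ) ≤ if Sat (R b.1) x then 0 else 1
      split_ifs <;> norm_num
    · exact zero_le_one
  have hf : ∀ j x y, (∀ e ∈ M j, x e = y e) → f j x = f j y := by
    intro j x y h
    rcases j with b | i
    · have : Sat (R b.1) x ↔ Sat (R b.1) y := by
        unfold Sat
        refine forall₂_congr fun l hl => ?_
        rw [h l.1 (mem_image_of_mem _ hl)]
      show (if Sat (R b.1) x then (0 : ℝ) else 1) = if Sat (R b.1) y then 0 else 1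
      simp only [this]
    · rfl
  have key := Finner.finner M w hw hw1 f hf0 hf
  have hL : Finner.avg (fun x => ∏ j, f j x ^ w j) = pr (Avoid s R) := by
    rw [← avg_eq_pr]
    congr 1
    funext x
    rw [Fintype.prod_sum_type]
    have h2 : ∏ a : Fin n, f (Sum.inr a) x ^ w (Sum.inr a) = 1 :=
      prod_eq_one fun a _ => Real.one_rpow _
    rw [h2, mul_one]
    split_ifs with h
    · refine prod_eq_one fun a _ => ?_
      show (if Sat (R a.1) x then (0 : ℝ) else 1) ^ w (Sum.inl a) = 1
      rw [if_neg (h a.1 a.2), Real.one_rpow]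
    · unfold Avoid at h
      push Not at h
      obtain ⟨b, hb, hS⟩ := h
      refine prod_eq_zero (mem_univ ⟨b, hb⟩) ?_
      show (if Sat (R b) x then (0 : ℝ) else 1) ^ ((1 : ℝ) / k) = 0
      rw [if_pos hS, Real.zero_rpow]
      positivity
  have hR : ∏ j, Finner.avg (f j) ^ w j ≤ Real.exp (-(wt s R / k)) := by
    rw [Fintype.prod_sum_type]
    have h2 : ∏ a : Fin n, Finner.avg (f (Sum.inr a)) ^ w (Sum.inr a) = 1 := by
      refine prod_eq_one fun a _ => ?_
      have : Finner.avg (f (Sum.inr a)) = 1 := Finner.avg_const (E := Fin n) 1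
      rw [this, Real.one_rpow]
    rw [h2, mul_one]
    have h3 : ∀ a : {b // b ∈ s}, Finner.avg (f (Sum.inl a)) ^ w (Sum.inl a) ≤
        Real.exp (-((1 / 2 : ℝ) ^ (R a.1).card / k)) := by
      intro a
      have h4 : Finner.avg (f (Sum.inl a)) = 1 - (1 / 2 : ℝ) ^ (R a.1).card := by
        have h5 : f (Sum.inl a) = fun x => (1 : ℝ) - (if Sat (R a.1) x then 1 else 0) := by
          funext x
          show (if Sat (R a.1) x then (0 : ℝ) else 1) = _
          split_ifs <;> norm_num
        rw [h5, avg_sub, Finner.avg_const (E := Fin n) 1, avg_eq_pr, hSAT n _ (hCon a.1 a.2)]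
      have h6 : (0 : ℝ) ≤ 1 - (1 / 2 : ℝ) ^ (R a.1).card := by
        rw [sub_nonneg]
        exact pow_le_one₀ (by norm_num) (by norm_num)
      have h7 : 1 - (1 / 2 : ℝ) ^ (R a.1).card ≤ Real.exp (-((1 / 2 : ℝ) ^ (R a.1).card)) := by
        have := Real.add_one_le_exp (-((1 / 2 : ℝ) ^ (R a.1).card))
        linarith
      rw [h4]
      show (1 - (1 / 2 : ℝ) ^ (R a.1).card) ^ ((1 : ℝ) / k) ≤ _
      refine (Real.rpow_le_rpow h6 h7 (by positivity)).trans ?_
      rw [← Real.exp_mul]
      apply le_of_eq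
      congr 1
      ring
    refine (prod_le_prod (fun a _ => ?_) fun a _ => h3 a).trans ?_
    · exact Real.rpow_nonneg (Finner.avg_nonneg (f := f (Sum.inl a)) fun x => hf0 (Sum.inl a) x) _
    · rw [← Real.exp_sum]
      apply le_of_eq
      congr 1
      unfold wt
      rw [sum_neg_distrib, sum_div, ← sum_coe_sort s]
  rw [← hL]
  exact key.trans hR

end Pool.Agent.Helper86.RK.FIN
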