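import Pool.Agent.Helper92.RK.Defs

/-!
# Part FPO: a large correlation gives two terms with a small union
-/

set_option autoImplicit false
set_option linter.all false

open Finset Pool.Agent.Helper92.RK

namespace Pool.Agent.Helper86.RK.FPO

variable {n : ℕ}

theorem pr_le {E E' : (Fin n → Bool) → Prop} (h : ∀ x, E x → E' x) : pr E ≤ pr E' := by
  classical
  unfold pr
  refine div_le_div_of_nonneg_right ?_ (by positivity)
  exact_mod_cast card_le_card fun x hx => by
    rw [mem_filter] at hx ⊢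
    exact ⟨hx.1, h x hx.2⟩

theorem pr_pos {E : (Fin n → Bool) → Prop} (h : 0 < pr E) : ∃ x, E x := by
  classical
  by_contra hc
  push Not at hc
  unfold pr at h
  rw [filter_false_of_mem fun x _ => hc x] at h
  simp at h

theorem pr_zero {E : (Fin n → Bool) → Prop} (h : ∀ x, ¬ E x) : pr E = 0 := by
  classical
  unfold pr
  rw [filter_false_of_mem fun x _ => h x]
  simp

/-- The literals of the chosen terms outside of `S`. -/
noncomputable def UU (S : Finset (Fin n)) (g : ∀ j ∈ S, Tm n) : Tm n :=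
  (S.attach.biUnion fun j => g j.1 j.2).filter fun l => l.1 ∉ S

theorem mem_UU {S : Finset (Fin n)} {g : ∀ j ∈ S, Tm n} {l : Fin n × Bool} :
    l ∈ UU S g ↔ (∃ j, ∃ hj : j ∈ S, l ∈ g j hj) ∧ l.1 ∉ S := by
  unfold UU
  rw [mem_filter, mem_biUnion]
  constructor
  · rintro ⟨⟨j, _, hl⟩, h⟩
    exact ⟨⟨j.1, j.2, hl⟩, h⟩
  · rintro ⟨⟨j, hj, hl⟩, h⟩
    exact ⟨⟨⟨j, hj⟩, mem_attach _ _, hl⟩, h⟩

theorem pr_sat_le (hSAT : S_SAT) (T : Tm n) : pr (Sat T) ≤ (1 / 2 : ℝ) ^ (vr T).card := by
  classical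
  by_cases hT : Con T
  · rw [hSAT n T hT]
    apply le_of_eq
    congr 1
    unfold vr
    rw [card_image_of_injOn]
    intro l hl l' hl' h
    exact hT l hl l' hl' h
  · unfold Pool.Agent.Helper92.RK.Con at hT
    push Not at hT
    obtain ⟨l, hl, l', hl', h1, h2⟩ := hT
    rw [pr_zero]
    · positivity
    · intro x hx
      apply h2
      have h3 := hx l hl
      have h4 := hx l' hl'
      rw [h1] at h3
      exact Prod.ext h1 (h3.symm.trans h4)

/-- Some term through `j` has all its literals outside of `S` true. -/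
def DP (F : Finset (Tm n)) (S : Finset (Fin n)) (x : Fin n → Bool) (j : Fin n) : Prop :=
  ∃ b ∈ F, j ∈ vr b ∧ ∀ l ∈ b, l.1 ∉ S → x l.1 = l.2

theorem fl_ne (x : Fin n → Bool) {i j : Fin n} (h : j ≠ i) : fl x i j = x j := by
  unfold fl
  rw [Function.update_of_ne h]

theorem fl_self (x : Fin n → Bool) (i : Fin n) : fl x i i = !x i := by
  unfold fl
  rw [Function.update_self]

theorem fl_fl (x : Fin n → Bool) (i : Fin n) : fl (fl x i) i = x := by
  funext j
  by_cases h : j = i
  · subst h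
    rw [fl_self, fl_self, Bool.not_not]
  · rw [fl_ne _ h, fl_ne _ h]

theorem DP_fl (F : Finset (Tm n)) (S : Finset (Fin n)) (x : Fin n → Bool) (j i : Fin n)
    (hi : i ∈ S) : DP F S (fl x i) j ↔ DP F S x j := by
  unfold DP
  refine exists_congr fun b => and_congr_right fun _ => and_congr_right fun _ => ?_
  refine forall₂_congr fun l _ => ?_
  refine imp_congr_right fun hl => ?_
  have hne : l.1 ≠ i := fun h => hl (by rw [h]; exact hi)
  rw [fl_ne x hne]

theorem sat_fl {ρ : Tm n} {S : Finset (Fin n)} (hd : Disjoint S (vr ρ)) (x : Fin n → Bool)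
    {i : Fin n} (hi : i ∈ S) : Sat ρ (fl x i) ↔ Sat ρ x := by
  unfold Sat
  refine forall₂_congr fun l hl => ?_
  have : l.1 ≠ i := by
    intro h
    exact (disjoint_left.mp hd hi) (h ▸ mem_image_of_mem _ hl)
  rw [fl_ne x this]

theorem val_fl_of {F : Finset (Tm n)} {S : Finset (Fin n)} {x : Fin n → Bool} {i : Fin n}
    (hi : i ∈ S) (hD : ¬ DP F S x i) (h : val F x) : val F (fl x i) := by
  obtain ⟨T, hT, hS⟩ := h
  refine ⟨T, hT, ?_⟩
  have hnot : i ∉ vr T := by
    intro h
    exact hD ⟨T, hT, h, fun l hl _ => hS l hl⟩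
  intro l hl
  have : l.1 ≠ i := by
    intro h
    exact hnot (h ▸ mem_image_of_mem _ hl)
  rw [fl_ne x this]
  exact hS l hl

theorem val_fl {F : Finset (Tm n)} {S : Finset (Fin n)} {x : Fin n → Bool} {i : Fin n}
    (hi : i ∈ S) (hD : ¬ DP F S x i) : val F (fl x i) ↔ val F x := by
  constructor
  · intro h
    have h1 : ¬ DP F S (fl x i) i := by rwa [DP_fl F S x i i hi]
    have h2 := val_fl_of hi h1 h
    rwa [fl_fl] at h2
  · exact val_fl_of hi hD

theorem chi_fl (S : Finset (Fin n)) (x : Fin n → Bool) {i : Fin n} (hi : i ∈ S) :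
    chi S (fl x i) = - chi S x := by
  unfold chi
  rw [← mul_prod_erase S _ hi, ← mul_prod_erase S (fun i => if x i then (-1 : ℝ) else 1) hi]
  have h1 : ∏ j ∈ S.erase i, (if fl x i j then (-1 : ℝ) else 1) =
      ∏ j ∈ S.erase i, (if x j then (-1 : ℝ) else 1) := by
    refine prod_congr rfl fun j hj => ?_
    rw [fl_ne x (ne_of_mem_erase hj)]
  rw [h1, fl_self]
  cases x i <;> simp

theorem abs_chi (S : Finset (Fin n)) (x : Fin n → Bool) : |chi S x| = 1 := by
  unfold chi
  rw [abs_prod]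
  refine prod_eq_one fun i _ => ?_
  split_ifs <;> simp

open Classical in
/-- The coordinates of `S` on which nothing depends. -/
noncomputable def JJ (F : Finset (Tm n)) (S : Finset (Fin n)) (x : Fin n → Bool) :
    Finset (Fin n) := S.filter fun j => ¬ DP F S x j

theorem JJ_fl (F : Finset (Tm n)) (S : Finset (Fin n)) (x : Fin n → Bool) {i : Fin n}
    (hi : i ∈ S) : JJ F S (fl x i) = JJ F S x := by
  classical
  unfold JJ
  refine filter_congr fun j _ => ?_
  rw [DP_fl F S x j i hi]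

/-- First step. -/
theorem step1 (F : Finset (Tm n)) (ρ : Tm n) (S : Finset (Fin n)) (hd : Disjoint S (vr ρ)) :
    |Mco F ρ S| ≤ pr (fun x => Sat ρ x ∧ ∀ j ∈ S, DP F S x j) := by
  classical
  let f : (Fin n → Bool) → ℝ := fun x => if val F x ∧ Sat ρ x then chi S x else 0
  have hsplit : ∑ x, f x = ∑ x ∈ univ.filter (fun x => (JJ F S x).Nonempty), f x +
      ∑ x ∈ univ.filter (fun x => ¬ (JJ F S x).Nonempty), f x :=
    (sum_filter_add_sum_filter_not _ _ _).symm
  have hz : ∑ x ∈ univ.filter (fun x => (JJ F S x).Nonempty), f x = 0 := by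
    have hne : ∀ x ∈ univ.filter (fun x => (JJ F S x).Nonempty), (JJ F S x).Nonempty :=
      fun x hx => (mem_filter.mp hx).2
    have hmem : ∀ x (hx : x ∈ univ.filter (fun x => (JJ F S x).Nonempty)),
        (JJ F S x).min' (hne x hx) ∈ S ∧ ¬ DP F S x ((JJ F S x).min' (hne x hx)) := by
      intro x hx
      have := (JJ F S x).min'_mem (hne x hx)
      unfold JJ at this
      rw [mem_filter] at this
      exact this
    have hin : ∀ x (hx : x ∈ univ.filter (fun x => (JJ F S x).Nonempty)),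
        fl x ((JJ F S x).min' (hne x hx)) ∈ univ.filter (fun x => (JJ F S x).Nonempty) := by
      intro x hx
      rw [mem_filter]
      refine ⟨mem_univ _, ?_⟩
      rw [JJ_fl F S x (hmem x hx).1]
      exact hne x hx
    refine sum_involution (fun x hx => fl x ((JJ F S x).min' (hne x hx))) ?_ ?_ hin ?_
    · intro x hx
      obtain ⟨h1, h2⟩ := hmem x hx
      show (if val F x ∧ Sat ρ x then chi S x else 0) +
        (if val F (fl x _) ∧ Sat ρ (fl x _) then chi S (fl x _) else 0) = 0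
      rw [val_fl h1 h2, sat_fl hd x h1, chi_fl S x h1]
      split_ifs <;> simp
    · intro x hx _ he
      have := congrFun he ((JJ F S x).min' (hne x hx))
      rw [fl_self] at this
      simp at this
    · intro x hx
      have h3 : JJ F S (fl x ((JJ F S x).min' (hne x hx))) = JJ F S x :=
        JJ_fl F S x (hmem x hx).1
      have h4 : ∀ (h : (JJ F S (fl x ((JJ F S x).min' (hne x hx)))).Nonempty),
          (JJ F S (fl x ((JJ F S x).min' (hne x hx)))).min' h =
            (JJ F S x).min' (hne x hx) := by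
        intro h
        congr 1
      show fl (fl x _) _ = x
      rw [h4]
      exact fl_fl x _
  have hM : Mco F ρ S = (∑ x ∈ univ.filter (fun x => ¬ (JJ F S x).Nonempty), f x) / 2 ^ n := by
    unfold Mco
    congr 1
    have : ∑ x, f x = ∑ x ∈ univ.filter (fun x => ¬ (JJ F S x).Nonempty), f x := by
      rw [hsplit, hz, zero_add]
    rw [← this]
  rw [hM, abs_div, abs_of_pos (by positivity : (0 : ℝ) < 2 ^ n)]
  unfold pr
  refine div_le_div_of_nonneg_right ?_ (by positivity)
  refine (abs_sum_le_sum_abs _ _).trans ?_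
  have : ∀ x ∈ univ.filter (fun x => ¬ (JJ F S x).Nonempty),
      |f x| ≤ if Sat ρ x then (1 : ℝ) else 0 := by
    intro x _
    show |(if val F x ∧ Sat ρ x then chi S x else 0)| ≤ _
    split_ifs with h1 h2 h3
    · rw [abs_chi]
    · exact absurd h1.2 h2
    · simp
    · simp
  refine (sum_le_sum this).trans ?_
  rw [sum_boole]
  have hsub : (filter (fun x => Sat ρ x) (univ.filter (fun x => ¬ (JJ F S x).Nonempty))).card ≤
      (univ.filter (fun x => Sat ρ x ∧ ∀ j ∈ S, DP F S x j)).card := by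
    refine card_le_card fun x hx => ?_
    rw [mem_filter, mem_filter] at hx
    rw [mem_filter]
    refine ⟨mem_univ _, hx.2, fun j hj => ?_⟩
    by_contra hc
    exact hx.1.2 ⟨j, by unfold JJ; rw [mem_filter]; exact ⟨hj, hc⟩⟩
  have hsub' : ((filter (fun x => Sat ρ x)
      (univ.filter (fun x => ¬ (JJ F S x).Nonempty))).card : ℝ) ≤
      ((univ.filter (fun x => Sat ρ x ∧ ∀ j ∈ S, DP F S x j)).card : ℝ) := by
    exact_mod_cast hsub
  refine hsub'.trans (le_of_eq ?_)
  have heq : (univ.filter (fun x => Sat ρ x ∧ ∀ j ∈ S, DP F S x j)) =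
      @filter _ (fun x => Sat ρ x ∧ ∀ j ∈ S, DP F S x j) (Classical.decPred _) univ := by
    ext x
    simp only [mem_filter]
  rw [heq]

/-- Union bound. -/
theorem pr_union {ι : Type} (s : Finset ι) (E : ι → (Fin n → Bool) → Prop)
    (E' : (Fin n → Bool) → Prop) (h : ∀ x, E' x → ∃ b ∈ s, E b x) :
    pr E' ≤ ∑ b ∈ s, pr (E b) := by
  classical
  unfold pr
  rw [← sum_div]
  refine div_le_div_of_nonneg_right ?_ (by positivity)
  have : (univ.filter E').card ≤ ∑ b ∈ s, (univ.filter (E b)).card := by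
    refine (card_le_card ?_).trans card_biUnion_le
    intro x hx
    rw [mem_filter] at hx
    obtain ⟨b, hb, hE⟩ := h x hx.2
    rw [mem_biUnion]
    exact ⟨b, hb, mem_filter.mpr ⟨mem_univ _, hE⟩⟩
  exact_mod_cast this

theorem main (hSAT : S_SAT) : S_FPO := by
  classical
  intro n k F ρ S i j hRead hCon hi hj hd θ hθ hM
  have h1 := hM.trans (step1 F ρ S hd)
  let Q : Finset (∀ j ∈ S, Tm n) := S.pi fun j => F.filter fun b => j ∈ vr b
  have h2 : pr (fun x => Sat ρ x ∧ ∀ j ∈ S, DP F S x j) ≤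
      ∑ g ∈ Q, pr (fun x => Sat ρ x ∧ Sat (UU S g) x) := by
    refine pr_union Q _ _ ?_
    rintro x ⟨hx, hD⟩
    choose g hg1 hg2 hg3 using hD
    refine ⟨g, ?_, hx, ?_⟩
    · rw [mem_pi]
      intro a ha
      rw [mem_filter]
      exact ⟨hg1 a ha, hg2 a ha⟩
    · intro l hl
      rw [mem_UU] at hl
      obtain ⟨⟨a, ha, hla⟩, hl2⟩ := hl
      exact hg3 a ha l hla hl2
  have hcard : (Q.card : ℝ) ≤ (k : ℝ) ^ S.card := by
    have : Q.card ≤ k ^ S.card := by
      rw [card_pi]
      calc ∏ a ∈ S, (F.filter fun b => a ∈ vr b).card ≤ ∏ a ∈ S, k :=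
            prod_le_prod' fun a _ => hRead a
        _ = k ^ S.card := by rw [prod_const]
    exact_mod_cast this
  have h3 : ∃ g ∈ Q, θ ≤ (k : ℝ) ^ S.card * pr (fun x => Sat ρ x ∧ Sat (UU S g) x) := by
    by_contra hc
    push Not at hc
    have hne : Q.Nonempty := by
      rw [nonempty_iff_ne_empty]
      intro h0
      rw [h0, sum_empty] at h2
      linarith
    have hk : (0 : ℝ) < (k : ℝ) ^ S.card := by
      have : (0 : ℝ) < Q.card := by exact_mod_cast hne.card_pos
      linarith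
    have h4 : (k : ℝ) ^ S.card * ∑ g ∈ Q, pr (fun x => Sat ρ x ∧ Sat (UU S g) x) <
        Q.card * θ := by
      rw [mul_sum, ← nsmul_eq_mul, ← sum_const]
      exact sum_lt_sum_of_nonempty hne hc
    have h5 : (Q.card : ℝ) * θ ≤ (k : ℝ) ^ S.card * θ :=
      mul_le_mul_of_nonneg_right hcard hθ.le
    have h6 : (k : ℝ) ^ S.card * θ ≤
        (k : ℝ) ^ S.card * ∑ g ∈ Q, pr (fun x => Sat ρ x ∧ Sat (UU S g) x) :=
      mul_le_mul_of_nonneg_left (h1.trans h2) hk.le
    linarith
  obtain ⟨g, hg, hgθ⟩ := h3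
  have hgm : ∀ a (ha : a ∈ S), g a ha ∈ F ∧ a ∈ vr (g a ha) := by
    intro a ha
    have := (mem_pi.mp hg) a ha
    rwa [mem_filter] at this
  have hpos : 0 < pr (fun x => Sat ρ x ∧ Sat (UU S g) x) := by
    by_contra hc
    have h0 : (0 : ℝ) ≤ (k : ℝ) ^ S.card := by positivity
    push Not at hc
    have := mul_nonpos_of_nonneg_of_nonpos h0 hc
    linarith
  obtain ⟨x, hxρ, hxU⟩ := pr_pos hpos
  have hcon : ∀ a (ha : a ∈ S), Con (g a ha ∪ ρ) := by
    intro a ha l hl l' hl' h
    have key : ∀ l ∈ g a ha, ∀ l' ∈ ρ, l.1 = l'.1 → l = l' := by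
      intro l hl l' hl' h
      have h7 : l.1 ∉ S := by
        intro hS
        exact (disjoint_left.mp hd hS) (h ▸ mem_image_of_mem _ hl')
      have h8 : x l.1 = l.2 := hxU l (mem_UU.mpr ⟨⟨a, ha, hl⟩, h7⟩)
      have h9 : x l'.1 = l'.2 := hxρ l' hl'
      rw [h] at h8
      exact Prod.ext h (h8.symm.trans h9)
    rw [mem_union] at hl hl'
    rcases hl with hl | hl <;> rcases hl' with hl' | hl'
    · exact hCon _ (hgm a ha).1 l hl l' hl' h
    · exact key l hl l' hl' h
    · exact (key l' hl' l hl h.symm).symm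
    · have h8 := hxρ l hl
      have h9 := hxρ l' hl'
      rw [h] at h8
      exact Prod.ext h (h8.symm.trans h9)
  refine ⟨g i hi, (hgm i hi).1, g j hj, (hgm j hj).1, (hgm i hi).2, (hgm j hj).2,
    hcon i hi, hcon j hj, ?_⟩
  have h10 : pr (fun x => Sat ρ x ∧ Sat (UU S g) x) ≤ (1 / 2 : ℝ) ^ (vr (UU S g)).card :=
    (pr_le fun x hx => hx.2).trans (pr_sat_le hSAT _)
  have h11 : (vr (g i hi) ∪ vr (g j hj)).card ≤ (vr (UU S g)).card + S.card := by
    refine le_trans (card_le_card ?_) (card_union_le _ _)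
    intro v hv
    by_cases hvS : v ∈ S
    · exact mem_union_right _ hvS
    · refine mem_union_left _ ?_
      rw [mem_union] at hv
      unfold vr at hv ⊢
      rw [mem_image, mem_image] at hv
      rw [mem_image]
      rcases hv with ⟨l, hl, rfl⟩ | ⟨l, hl, rfl⟩
      · exact ⟨l, mem_UU.mpr ⟨⟨i, hi, hl⟩, hvS⟩, rfl⟩
      · exact ⟨l, mem_UU.mpr ⟨⟨j, hj, hl⟩, hvS⟩, rfl⟩
  have h12 : (1 / 2 : ℝ) ^ ((vr (UU S g)).card + S.card) ≤
      (1 / 2 : ℝ) ^ (vr (g i hi) ∪ vr (g j hj)).card :=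
    pow_le_pow_of_le_one (by norm_num) (by norm_num) h11
  calc θ ≤ (k : ℝ) ^ S.card * pr (fun x => Sat ρ x ∧ Sat (UU S g) x) := hgθ
    _ ≤ (k : ℝ) ^ S.card * (1 / 2 : ℝ) ^ (vr (UU S g)).card :=
        mul_le_mul_of_nonneg_left h10 (by positivity)
    _ = (2 * k : ℝ) ^ S.card * (1 / 2 : ℝ) ^ ((vr (UU S g)).card + S.card) := by
        rw [mul_pow, pow_add]
        have : (2 : ℝ) ^ S.card * (1 / 2 : ℝ) ^ S.card = 1 := by
          rw [← mul_pow]; norm_num
        calc (k : ℝ) ^ S.card * (1 / 2 : ℝ) ^ (vr (UU S g)).card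
            = (2 ^ S.card * (1 / 2 : ℝ) ^ S.card) *
              ((k : ℝ) ^ S.card * (1 / 2 : ℝ) ^ (vr (UU S g)).card) := by rw [this, one_mul]
          _ = _ := by ring
    _ ≤ (2 * k : ℝ) ^ S.card * (1 / 2 : ℝ) ^ (vr (g i hi) ∪ vr (g j hj)).card :=
        mul_le_mul_of_nonneg_left h12 (by positivity)

end Pool.Agent.Helper86.RK.FPO
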